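import Mathlib

/-!
# Normal subgroups of `SL₂(ℤ_p)`: a profinite group without uncountable normal subgroups of uncountable index

Every normal subgroup of `SL₂(ℤ_p)` (no closedness, no Borel measurability) is contained in `{1, -1}` or open.

Proof. Let `N` be normal and `g ∈ N`, `g ≠ ±1`. Some conjugates and commutators of `g` give an upper
triangular element of `N` whose diagonal entry has square different from `1`, and then an elementary
matrix `U x ∈ N`, `x ≠ 0`. Conjugation by diagonal matrices and the identity `(1 + s)² - (1 - s)² = 4 s`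
give `U y ∈ N` for all `y` in a nonzero ideal, and conjugation gives the transposed matrices.
The elementary matrices over a nonzero ideal `(y)` generate all matrices congruent to `1` modulo `y²`.
-/

set_option linter.unusedSimpArgs false

open Matrix

namespace Pool.Agent.Results.MP_847604_al.NormalOpenOrFinite

section algebra

variable {R : Type*} [CommRing R]

/-- upper elementary matrix -/
def U (x : R) : SpecialLinearGroup (Fin 2) R := ⟨!![1, x; 0, 1], by simp [det_fin_two]⟩

/-- lower elementary matrix -/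
def L (x : R) : SpecialLinearGroup (Fin 2) R := ⟨!![1, 0; x, 1], by simp [det_fin_two]⟩

/-- upper triangular matrix -/
def T (a y b : R) (h : a * b = 1) : SpecialLinearGroup (Fin 2) R :=
  ⟨!![a, y; 0, b], by simp [det_fin_two, h]⟩

/-- Weyl element -/
def W : SpecialLinearGroup (Fin 2) R := ⟨!![0, 1; -1, 0], by simp [det_fin_two]⟩

theorem det_eq (g : SpecialLinearGroup (Fin 2) R) :
    g.1 0 0 * g.1 1 1 - g.1 0 1 * g.1 1 0 = 1 := by
  have := g.2
  rwa [det_fin_two] at this

theorem ext4 {g h : SpecialLinearGroup (Fin 2) R} (h00 : g.1 0 0 = h.1 0 0) (h01 : g.1 0 1 = h.1 0 1)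
    (h10 : g.1 1 0 = h.1 1 0) (h11 : g.1 1 1 = h.1 1 1) : g = h := by
  apply Subtype.ext
  ext i j
  fin_cases i <;> fin_cases j <;> assumption

theorem mul00 (g h : SpecialLinearGroup (Fin 2) R) :
    (g * h).1 0 0 = g.1 0 0 * h.1 0 0 + g.1 0 1 * h.1 1 0 := by
  simp [Matrix.mul_apply, Fin.sum_univ_two]

theorem mul01 (g h : SpecialLinearGroup (Fin 2) R) :
    (g * h).1 0 1 = g.1 0 0 * h.1 0 1 + g.1 0 1 * h.1 1 1 := by
  simp [Matrix.mul_apply, Fin.sum_univ_two]

theorem mul10 (g h : SpecialLinearGroup (Fin 2) R) :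
    (g * h).1 1 0 = g.1 1 0 * h.1 0 0 + g.1 1 1 * h.1 1 0 := by
  simp [Matrix.mul_apply, Fin.sum_univ_two]

theorem mul11 (g h : SpecialLinearGroup (Fin 2) R) :
    (g * h).1 1 1 = g.1 1 0 * h.1 0 1 + g.1 1 1 * h.1 1 1 := by
  simp [Matrix.mul_apply, Fin.sum_univ_two]

theorem inv00 (g : SpecialLinearGroup (Fin 2) R) : (g⁻¹).1 0 0 = g.1 1 1 := by
  simp [adjugate_fin_two]

theorem inv01 (g : SpecialLinearGroup (Fin 2) R) : (g⁻¹).1 0 1 = - g.1 0 1 := by
  simp [adjugate_fin_two]

theorem inv10 (g : SpecialLinearGroup (Fin 2) R) : (g⁻¹).1 1 0 = - g.1 1 0 := by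
  simp [adjugate_fin_two]

theorem inv11 (g : SpecialLinearGroup (Fin 2) R) : (g⁻¹).1 1 1 = g.1 0 0 := by
  simp [adjugate_fin_two]

@[simp] theorem U00 (x : R) : (U x).1 0 0 = 1 := rfl
@[simp] theorem U01 (x : R) : (U x).1 0 1 = x := rfl
@[simp] theorem U10 (x : R) : (U x).1 1 0 = 0 := rfl
@[simp] theorem U11 (x : R) : (U x).1 1 1 = 1 := rfl
@[simp] theorem L00 (x : R) : (L x).1 0 0 = 1 := rfl
@[simp] theorem L01 (x : R) : (L x).1 0 1 = 0 := rfl
@[simp] theorem L10 (x : R) : (L x).1 1 0 = x := rfl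
@[simp] theorem L11 (x : R) : (L x).1 1 1 = 1 := rfl
@[simp] theorem T00 (a y b : R) (h : a * b = 1) : (T a y b h).1 0 0 = a := rfl
@[simp] theorem T01 (a y b : R) (h : a * b = 1) : (T a y b h).1 0 1 = y := rfl
@[simp] theorem T10 (a y b : R) (h : a * b = 1) : (T a y b h).1 1 0 = 0 := rfl
@[simp] theorem T11 (a y b : R) (h : a * b = 1) : (T a y b h).1 1 1 = b := rfl
@[simp] theorem W00 : (W : SpecialLinearGroup (Fin 2) R).1 0 0 = 0 := rfl
@[simp] theorem W01 : (W : SpecialLinearGroup (Fin 2) R).1 0 1 = 1 := rfl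
@[simp] theorem W10 : (W : SpecialLinearGroup (Fin 2) R).1 1 0 = -1 := rfl
@[simp] theorem W11 : (W : SpecialLinearGroup (Fin 2) R).1 1 1 = 0 := rfl

variable (N : Subgroup (SpecialLinearGroup (Fin 2) R)) [hN : N.Normal]

/-- an upper triangular element of `N` gives elementary matrices in `N` -/
theorem tri {a y b : R} {h : a * b = 1} (hT : T a y b h ∈ N) (z : R) : U ((a ^ 2 - 1) * z) ∈ N := by
  have h1 : U z * (T a y b h)⁻¹ * (U z)⁻¹ ∈ N := hN.conj_mem _ (N.inv_mem hT) _
  have h2 := N.mul_mem hT h1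
  convert h2 using 1
  apply ext4
  · simp [mul00, mul01, mul10, mul11, inv00, inv01, inv10, inv11]
    linear_combination -h
  · simp [mul00, mul01, mul10, mul11, inv00, inv01, inv10, inv11]
    linear_combination z * h
  · simp [mul00, mul01, mul10, mul11, inv00, inv01, inv10, inv11]
  · simp [mul00, mul01, mul10, mul11, inv00, inv01, inv10, inv11]
    linear_combination -h

/-- an element of `N` with lower left entry `c` gives upper triangular elements of `N` -/
theorem to_tri {g : SpecialLinearGroup (Fin 2) R} (hg : g ∈ N) {u v y : R} (huv : u * v = 1)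
    (hy : g.1 1 0 * y = g.1 1 1 * (u - v)) :
    ∃ w, ∃ h : u ^ 2 * v ^ 2 = 1, T (u ^ 2) w (v ^ 2) h ∈ N := by
  have hh : u ^ 2 * v ^ 2 = 1 := by rw [← mul_pow, huv, one_pow]
  have h1 : T u y v huv * g * (T u y v huv)⁻¹ ∈ N := hN.conj_mem _ hg _
  have h2 := N.mul_mem h1 (N.inv_mem hg)
  have hd := det_eq g
  refine ⟨(T u y v huv * g * (T u y v huv)⁻¹ * g⁻¹).1 0 1, hh, ?_⟩
  convert h2 using 1
  apply ext4
  · simp only [mul00, mul01, mul10, mul11, inv00, inv01, inv10, inv11, T00, T01, T10, T11]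
    linear_combination -(u * g.1 0 0 + y * g.1 1 0) * hy - u ^ 2 * hd
  · rfl
  · simp only [mul00, mul01, mul10, mul11, inv00, inv01, inv10, inv11, T00, T01, T10, T11]
    linear_combination -(v * g.1 1 0) * hy
  · simp only [mul00, mul01, mul10, mul11, inv00, inv01, inv10, inv11, T00, T01, T10, T11]
    linear_combination (v * g.1 0 0) * hy - v ^ 2 * hd

theorem U_add (x y : R) : U (x + y) = U x * U y := by
  apply ext4 <;> simp [mul00, mul01, mul10, mul11, add_comm]

theorem U_neg (x : R) : U (-x) = (U x)⁻¹ := by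
  apply ext4 <;> simp [inv00, inv01, inv10, inv11]

/-- conjugation by diagonal matrices -/
theorem diag_conj {x : R} (hx : U x ∈ N) {u v : R} (huv : u * v = 1) : U (u ^ 2 * x) ∈ N := by
  have h1 : T u 0 v huv * U x * (T u 0 v huv)⁻¹ ∈ N := hN.conj_mem _ hx _
  convert h1 using 1
  apply ext4
  · simp [mul00, mul01, mul10, mul11, inv00, inv01, inv10, inv11, huv]
  · simp [mul00, mul01, mul10, mul11, inv00, inv01, inv10, inv11]
    ring
  · simp [mul00, mul01, mul10, mul11, inv00, inv01, inv10, inv11]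
  · simp [mul00, mul01, mul10, mul11, inv00, inv01, inv10, inv11, huv, mul_comm v u]

/-- multiplication by `4 s` if `1 + s` and `1 - s` are units -/
theorem four_mul {x : R} (hx : U x ∈ N) {s : R} (h1 : IsUnit (1 + s)) (h2 : IsUnit (1 - s)) :
    U (4 * s * x) ∈ N := by
  obtain ⟨v1, hv1⟩ := h1.exists_right_inv
  obtain ⟨v2, hv2⟩ := h2.exists_right_inv
  have e1 := diag_conj N hx hv1
  have e2 := diag_conj N hx hv2
  have e3 := N.mul_mem e1 (N.inv_mem e2)
  rw [← U_neg, ← U_add] at e3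
  convert e3 using 2
  ring

/-- conjugation by the Weyl element -/
theorem weyl {x : R} (hx : U x ∈ N) : L (-x) ∈ N := by
  have h1 : W * U x * W⁻¹ ∈ N := hN.conj_mem _ hx _
  convert h1 using 1
  apply ext4 <;> simp [mul00, mul01, mul10, mul11, inv00, inv01, inv10, inv11]

/-- The elementary matrices over the ideal `(x)` give all matrices congruent to `1` modulo `x ^ 2`. -/
theorem congr {x : R} (hx : ∀ s : R, U (x * s) ∈ N) {g : SpecialLinearGroup (Fin 2) R}
    (hu : IsUnit (g.1 0 0)) (h00 : x ^ 2 ∣ g.1 0 0 - 1) (h01 : x ^ 2 ∣ g.1 0 1) (h10 : x ^ 2 ∣ g.1 1 0) :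
    g ∈ N := by
  have hL : ∀ s : R, L (x * s) ∈ N := fun s => by
    have := weyl N (hx (-s))
    simpa using this
  obtain ⟨r, hr⟩ := h00
  obtain ⟨b, hb⟩ := h01
  obtain ⟨c, hc⟩ := h10
  obtain ⟨a', ha'⟩ := hu.exists_right_inv
  have hd := det_eq g
  have key : g = L (x * (x * c * a')) * L (x * (- r * a')) * U (x * 1) * L (x * r) *
      U (x * (-a')) * U (x * (x * a' * b)) := by
    have e00 : g.1 0 0 = 1 + x ^ 2 * r := by linear_combination hr
    rw [e00, hb, hc] at hd
    rw [e00] at ha'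
    have h11 : g.1 1 1 = a' * (1 + x ^ 2 * b * (x ^ 2 * c)) := by
      linear_combination -g.1 1 1 * ha' + a' * hd
    apply ext4
    · simp [mul00, mul01, mul10, mul11]
      linear_combination e00
    · simp [mul00, mul01, mul10, mul11]
      linear_combination hb + (x - x ^ 2 * b) * ha'
    · simp [mul00, mul01, mul10, mul11]
      linear_combination hc + (x * r - x ^ 2 * c) * ha'
    · simp [mul00, mul01, mul10, mul11]
      linear_combination h11 + (1 - a' * (x ^ 2 * c - x * r) * (x ^ 2 * b - x)) * ha'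
  rw [key]
  exact N.mul_mem (N.mul_mem (N.mul_mem (N.mul_mem (N.mul_mem (hL _) (hL _)) (hx _)) (hL _)) (hx _)) (hx _)

end algebra


section padic

variable (p : ℕ) [hp : Fact p.Prime]

theorem unit_one_add (r : ℤ_[p]) : IsUnit (1 + p * r) := by
  have h : ¬ IsUnit (-(p * r : ℤ_[p])) := by
    rw [IsUnit.neg_iff]
    intro h
    exact PadicInt.p_nonunit (isUnit_of_mul_isUnit_left h)
  have := (IsLocalRing.isUnit_or_isUnit_one_sub_self (-(p * r : ℤ_[p]))).resolve_left h
  simpa using this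

variable (N : Subgroup (SpecialLinearGroup (Fin 2) ℤ_[p])) [hN : N.Normal]

/-- If `N` contains an elementary matrix, it is open. -/
theorem open_of_U {x : ℤ_[p]} (hx0 : x ≠ 0) (hx : U x ∈ N) :
    IsOpen (N : Set (SpecialLinearGroup (Fin 2) ℤ_[p])) := by
  -- the ideal generated by `4 p x`
  have h1 : ∀ s : ℤ_[p], U ((4 * p * x) * s) ∈ N := fun s => by
    have e1 : IsUnit (1 + p * s : ℤ_[p]) := unit_one_add p s
    have e2 : IsUnit (1 - p * s : ℤ_[p]) := by
      have := unit_one_add p (-s)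
      rwa [mul_neg, ← sub_eq_add_neg] at this
    have := four_mul N hx e1 e2
    convert this using 2
    ring
  set y : ℤ_[p] := 4 * p * x with hy
  have hy0 : y ≠ 0 := by
    have : (p : ℤ_[p]) ≠ 0 := by exact_mod_cast hp.out.ne_zero
    simp [hy, this, hx0]
  have hpos : 0 < ‖(p : ℤ_[p]) * y ^ 2‖ := by
    have : (p : ℤ_[p]) ≠ 0 := by exact_mod_cast hp.out.ne_zero
    rw [norm_pos_iff]
    exact mul_ne_zero this (pow_ne_zero _ hy0)
  have hdvd : ∀ z : ℤ_[p], ‖z‖ < ‖(p : ℤ_[p]) * y ^ 2‖ → (p : ℤ_[p]) * y ^ 2 ∣ z := by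
    intro z hz
    have hw : (((p : ℤ_[p]) * y ^ 2 : ℤ_[p]) : ℚ_[p]) ≠ 0 := by
      intro h0
      have : (p : ℤ_[p]) * y ^ 2 = 0 := PadicInt.ext h0
      rw [this, norm_zero] at hpos
      exact lt_irrefl _ hpos
    have hle : ‖(z : ℚ_[p]) / (((p : ℤ_[p]) * y ^ 2 : ℤ_[p]) : ℚ_[p])‖ ≤ 1 := by
      rw [norm_div, div_le_one (norm_pos_iff.2 hw), ← PadicInt.norm_def, ← PadicInt.norm_def]
      exact hz.le
    refine ⟨⟨_, hle⟩, ?_⟩
    apply PadicInt.ext
    exact (mul_div_cancel₀ _ hw).symm.trans (by rfl)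
  refine Subgroup.isOpen_of_mem_nhds N (g := 1) ?_
  have hopen : IsOpen {g : SpecialLinearGroup (Fin 2) ℤ_[p] | ‖g.1 0 0 - 1‖ < ‖(p : ℤ_[p]) * y ^ 2‖ ∧
      ‖g.1 0 1‖ < ‖(p : ℤ_[p]) * y ^ 2‖ ∧ ‖g.1 1 0‖ < ‖(p : ℤ_[p]) * y ^ 2‖} := by
    have c : ∀ i j, Continuous fun g : SpecialLinearGroup (Fin 2) ℤ_[p] => g.1 i j := fun i j =>
      (continuous_apply_apply i j).comp continuous_subtype_val
    refine IsOpen.inter ?_ (IsOpen.inter ?_ ?_)
    · exact isOpen_lt ((c 0 0).sub continuous_const).norm continuous_const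
    · exact isOpen_lt (c 0 1).norm continuous_const
    · exact isOpen_lt (c 1 0).norm continuous_const
  refine Filter.mem_of_superset (hopen.mem_nhds ?_) ?_
  · refine ⟨?_, ?_, ?_⟩
    · simpa using hpos
    · simpa using hpos
    · simpa using hpos
  · rintro g ⟨g0, g1, g2⟩
    have d0 := hdvd _ g0
    have d1 := hdvd _ g1
    have d2 := hdvd _ g2
    refine congr N h1 ?_ ((Dvd.intro_left _ rfl).trans d0) ((Dvd.intro_left _ rfl).trans d1)
      ((Dvd.intro_left _ rfl).trans d2)
    obtain ⟨r, hr⟩ := d0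
    have : g.1 0 0 = 1 + p * (y ^ 2 * r) := by linear_combination hr
    rw [this]
    exact unit_one_add p _

theorem two_add_ne (r : ℤ_[p]) : 2 + (p : ℤ_[p]) ^ 2 * r ≠ 0 := by
  intro h
  have h1 : (p : ℤ_[p]) ^ 2 ∣ ((2 : ℤ) : ℤ_[p]) := ⟨-r, by push_cast; linear_combination h⟩
  rw [PadicInt.pow_p_dvd_int_iff] at h1
  have h2 := Int.le_of_dvd (by norm_num) h1
  have h3 : (2 : ℤ) ≤ p := by exact_mod_cast hp.out.two_le
  nlinarith

theorem open_of_lower {g : SpecialLinearGroup (Fin 2) ℤ_[p]} (hg : g ∈ N) (hc : g.1 1 0 ≠ 0) :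
    IsOpen (N : Set (SpecialLinearGroup (Fin 2) ℤ_[p])) := by
  set c := g.1 1 0 with hcdef
  have hu : IsUnit (1 + p * (p * c) : ℤ_[p]) := unit_one_add p _
  obtain ⟨v, hv⟩ := hu.exists_right_inv
  obtain ⟨w, h, hT⟩ := to_tri N hg (y := g.1 1 1 * v * p ^ 2 * (2 + p ^ 2 * c)) hv (by
    rw [← hcdef]
    linear_combination (g.1 1 1 * (1 + p * (p * c))) * hv - (g.1 1 1 * (1 + p * (p * c))) * hv + (g.1 1 1 * (1 + p * (p * c))) * hv)
  have hU := tri N hT 1
  refine open_of_U p N ?_ hU
  have e1 : (((1 + p * (p * c)) ^ 2) ^ 2 - 1) * 1 = (p : ℤ_[p]) ^ 2 * c * (2 + p ^ 2 * c) *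
      (2 + p ^ 2 * (2 * c + p ^ 2 * c ^ 2)) := by ring
  rw [e1]
  have hp0 : (p : ℤ_[p]) ≠ 0 := by exact_mod_cast hp.out.ne_zero
  exact mul_ne_zero (mul_ne_zero (mul_ne_zero (pow_ne_zero _ hp0) hc) (two_add_ne p _)) (two_add_ne p _)

/-- A normal subgroup of `SL₂(ℤ_p)` which is not contained in `{1, -1}` is open. -/
theorem open_of_normal {g : SpecialLinearGroup (Fin 2) ℤ_[p]} (hg : g ∈ N) (h1 : g ≠ 1) (h2 : g ≠ -1) :
    IsOpen (N : Set (SpecialLinearGroup (Fin 2) ℤ_[p])) := by
  by_cases hc : g.1 1 0 = 0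
  · by_cases hb : g.1 0 1 = 0
    · have hd := det_eq g
      rw [hc, mul_zero, sub_zero] at hd
      have hT : T (g.1 0 0) 0 (g.1 1 1) hd ∈ N := by
        convert hg using 1
        apply ext4 <;> simp [hc, hb]
      refine open_of_U p N (x := (g.1 0 0 ^ 2 - 1) * 1) ?_ (tri N hT 1)
      rw [mul_one]
      intro h0
      have h3 : (g.1 0 0 - 1) * (g.1 0 0 + 1) = 0 := by linear_combination h0
      rcases mul_eq_zero.1 h3 with h4 | h4
      · have h5 : g.1 0 0 = 1 := by linear_combination h4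
        rw [h5, one_mul] at hd
        exact h1 (ext4 (by simpa using h5) (by simpa using hb) (by simpa using hc) (by simpa using hd))
      · have h5 : g.1 0 0 = -1 := by linear_combination h4
        rw [h5] at hd
        have h6 : g.1 1 1 = -1 := by linear_combination -hd
        exact h2 (ext4 (by simpa using h5) (by simpa using hb) (by simpa using hc) (by simpa using h6))
    · have hW : W * g * W⁻¹ ∈ N := hN.conj_mem _ hg _
      refine open_of_lower p N hW ?_
      simp [mul00, mul01, mul10, mul11, inv00, inv01, inv10, inv11, hb]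
  · exact open_of_lower p N hg hc

end padic

/-- **Theorem.** Let `p` be a prime. `SL₂(ℤ_p)` is an uncountable non-archimedean compact metrizable
group, and each of its normal subgroups `N` (Borel, analytic or neither) which is uncountable is open
and has finite index. In particular no normal subgroup is uncountable and of uncountable index. -/
theorem result (p : ℕ) [Fact p.Prime] :
    (NonarchimedeanGroup (SpecialLinearGroup (Fin 2) ℤ_[p]) ∧
      CompactSpace (SpecialLinearGroup (Fin 2) ℤ_[p]) ∧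
      TopologicalSpace.MetrizableSpace (SpecialLinearGroup (Fin 2) ℤ_[p]) ∧
      Uncountable (SpecialLinearGroup (Fin 2) ℤ_[p])) ∧
    ∀ N : Subgroup (SpecialLinearGroup (Fin 2) ℤ_[p]), N.Normal → Uncountable N →
      IsOpen (N : Set (SpecialLinearGroup (Fin 2) ℤ_[p])) ∧
        Finite (SpecialLinearGroup (Fin 2) ℤ_[p] ⧸ N) := by
  have hce : Topology.IsClosedEmbedding
      ((↑) : SpecialLinearGroup (Fin 2) ℤ_[p] → Matrix (Fin 2) (Fin 2) ℤ_[p]) :=
    Matrix.SpecialLinearGroup.isClosedEmbedding_val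
  have hcomp : CompactSpace (SpecialLinearGroup (Fin 2) ℤ_[p]) := by
    have : CompactSpace (Matrix (Fin 2) (Fin 2) ℤ_[p]) :=
      inferInstanceAs (CompactSpace (Fin 2 → Fin 2 → ℤ_[p]))
    exact hce.compactSpace
  have hmet : TopologicalSpace.MetrizableSpace (SpecialLinearGroup (Fin 2) ℤ_[p]) := by
    have : TopologicalSpace.MetrizableSpace (Matrix (Fin 2) (Fin 2) ℤ_[p]) :=
      inferInstanceAs (TopologicalSpace.MetrizableSpace (Fin 2 → Fin 2 → ℤ_[p]))
    exact hce.isEmbedding.metrizableSpace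
  have htd : TotallyDisconnectedSpace (SpecialLinearGroup (Fin 2) ℤ_[p]) := by
    have : TotallyDisconnectedSpace (Matrix (Fin 2) (Fin 2) ℤ_[p]) :=
      inferInstanceAs (TotallyDisconnectedSpace (Fin 2 → Fin 2 → ℤ_[p]))
    exact inferInstanceAs (TotallyDisconnectedSpace (Subtype _))
  refine ⟨⟨⟨?_⟩, hcomp, hmet, ?_⟩, ?_⟩
  · intro V hV
    obtain ⟨V', hV'1, hV'2, hV'3⟩ := mem_nhds_iff.1 hV
    obtain ⟨C, hC1, hC2, hC3⟩ := compact_exists_isClopen_in_isOpen hV'2 hV'3
    obtain ⟨H, hH⟩ := IsTopologicalGroup.exist_openSubgroup_sub_clopen_nhds_of_one hC1 hC2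
    exact ⟨H, hH.trans (hC3.trans hV'1)⟩
  · have : Function.Injective (U : ℤ_[p] → SpecialLinearGroup (Fin 2) ℤ_[p]) := by
      intro x y h
      have := congrArg (fun g : SpecialLinearGroup (Fin 2) ℤ_[p] => g.1 0 1) h
      simpa using this
    have h2 : Uncountable ℤ_[p] := by
      rw [← Cardinal.aleph0_lt_mk_iff]
      have h3 : IsOpen {x : ℚ_[p] | ‖x‖ ≤ 1} := by
        have : {x : ℚ_[p] | ‖x‖ ≤ 1} = Metric.closedBall 0 1 := by
          ext x
          simp
        rw [this]
        exact IsUltrametricDist.isOpen_closedBall 0 one_ne_zero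
      have h4 := continuum_le_cardinal_of_isOpen ℚ_[p] h3 ⟨0, by simp⟩
      exact lt_of_lt_of_le Cardinal.aleph0_lt_continuum h4
    exact this.uncountable
  · intro N hN hunc
    have hopen : IsOpen (N : Set (SpecialLinearGroup (Fin 2) ℤ_[p])) := by
      by_contra hno
      have hsub : (N : Set (SpecialLinearGroup (Fin 2) ℤ_[p])) ⊆ {1, -1} := by
        intro g hg
        by_contra hg'
        simp only [Set.mem_insert_iff, Set.mem_singleton_iff, not_or] at hg'
        exact hno (open_of_normal p N hg hg'.1 hg'.2)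
      have hfin : (N : Set (SpecialLinearGroup (Fin 2) ℤ_[p])).Finite := (Set.toFinite _).subset hsub
      have : Finite N := hfin
      exact not_countable (α := N) inferInstance
    exact ⟨hopen, N.quotient_finite_of_isOpen hopen⟩

end Pool.Agent.Results.MP_847604_al.NormalOpenOrFinite
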